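import Pool.Agent.Lib.MP_144d21_co.XU.Iface

/-!
# MP_144d21_co, project XU, module CHG
-/

set_option autoImplicit false

namespace Pool.Agent.Xu.H87

open Finset

theorem modLem (n a d : ℕ) (hd : d < n) :
    (a + d) % n = a % n + d ∨ (a + d) % n + n = a % n + d := by
  have hn : 0 < n := by omega
  have h1 : (a + d) % n = (a % n + d) % n := by
    rw [Nat.add_mod, Nat.mod_eq_of_lt hd]
  have h2 : a % n < n := Nat.mod_lt _ hn
  rw [h1]
  by_cases h : a % n + d < n
  · left; exact Nat.mod_eq_of_lt h
  · right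
    rw [Nat.mod_eq_sub_mod (by omega), Nat.mod_eq_of_lt (by omega)]
    omega

theorem subVal (n a d : ℕ) (hn : 0 < n) (h0 : 0 < d) (hd : d < n) :
    ((⟨(a + d) % n, Nat.mod_lt _ hn⟩ : Fin n) - ⟨a % n, Nat.mod_lt _ hn⟩).val = d ∧
    ((⟨a % n, Nat.mod_lt _ hn⟩ : Fin n) - ⟨(a + d) % n, Nat.mod_lt _ hn⟩).val = n - d := by
  have h2 : a % n < n := Nat.mod_lt _ hn
  have h3 : (a + d) % n < n := Nat.mod_lt _ hn
  constructor
  · rw [Fin.sub_def]
    show (n - a % n + (a + d) % n) % n = d
    rcases modLem n a d hd with h | h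
    · rw [h, show n - a % n + (a % n + d) = n + d by omega, Nat.add_mod_left,
        Nat.mod_eq_of_lt hd]
    · rw [show n - a % n + (a + d) % n = d by omega, Nat.mod_eq_of_lt hd]
  · rw [Fin.sub_def]
    show (n - (a + d) % n + a % n) % n = n - d
    rcases modLem n a d hd with h | h
    · rw [show n - (a + d) % n + a % n = n - d by omega, Nat.mod_eq_of_lt (by omega)]
    · rw [show n - (a + d) % n + a % n = n + (n - d) by omega, Nat.add_mod_left,
        Nat.mod_eq_of_lt (by omega)]

/-- discrete first exit -/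
theorem firstExit (P : ℕ → Prop) (m : ℕ) (h0 : P 0) (hm : ¬ P m) :
    ∃ a, a < m ∧ P a ∧ ¬ P (a + 1) := by
  by_contra hcon
  push Not at hcon
  have : ∀ a, a ≤ m → P a := by
    intro a
    induction a with
    | zero => intro _; exact h0
    | succ a ih => intro h; exact hcon a (by omega) (ih (by omega))
  exact hm (this m le_rfl)

theorem chg : ChgS := by
  intro V _ _ G S1 S2 hsep hK h1 h2 n hn f
  by_contra hcon
  push Not at hcon
  obtain ⟨i, hi⟩ := h1 n hn f
  obtain ⟨j, hj⟩ := h2 n hn f
  have hn0 : 0 < n := by omega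
  set g : ℕ → V := fun k => f ⟨k % n, Nat.mod_lt _ hn0⟩ with hg
  have hgS : ∀ k, g k ∈ S1 ∪ S2 := fun k => hcon _
  have hadj1 : ∀ k, G.Adj (g k) (g (k + 1)) := by
    intro k
    rw [hg]
    simp only
    rw [f.map_adj_iff, SimpleGraph.cycleGraph_adj']
    right
    exact (subVal n k 1 hn0 (by omega) (by omega)).1
  have hadj2 : ∀ a d, 0 < d → d < n → G.Adj (g a) (g (a + d)) → d = 1 ∨ d = n - 1 := by
    intro a d h0 hd h
    rw [hg] at h
    simp only at h
    rw [f.map_adj_iff, SimpleGraph.cycleGraph_adj', (subVal n a d hn0 h0 hd).1,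
      (subVal n a d hn0 h0 hd).2] at h
    omega
  have hinj : ∀ a d, 0 < d → d < n → g a ≠ g (a + d) := by
    intro a d h0 hd h
    rw [hg] at h
    simp only at h
    have h3 := f.injective h
    have h4 : a % n = (a + d) % n := congrArg Fin.val h3
    rcases modLem n a d hd with h5 | h5 <;> omega
  have hgi : g i.val = f i := by
    rw [hg]
    simp only
    congr 1
    ext
    exact Nat.mod_eq_of_lt i.isLt
  have hgn : ∀ k, g (k + n) = g k := by
    intro k
    rw [hg]
    simp only
    congr 1
    ext
    exact Nat.add_mod_right _ _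
  -- j = i + d
  obtain ⟨d, hd0, hdn, hgj⟩ : ∃ d, 0 < d ∧ d < n ∧ g (i.val + d) = f j := by
    have hij : i ≠ j := by
      rintro rfl
      rcases mem_union.1 (hcon i) with h | h
      · exact hi h
      · exact hj h
    have hij' : i.val ≠ j.val := fun h => hij (Fin.ext h)
    rcases lt_or_gt_of_ne hij' with h | h
    · refine ⟨j.val - i.val, by omega, by omega, ?_⟩
      rw [hg]
      simp only
      congr 1
      ext
      show (i.val + (j.val - i.val)) % n = j.val
      rw [show i.val + (j.val - i.val) = j.val by omega]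
      exact Nat.mod_eq_of_lt j.isLt
    · refine ⟨j.val + n - i.val, by omega, by omega, ?_⟩
      rw [hg]
      simp only
      congr 1
      ext
      show (i.val + (j.val + n - i.val)) % n = j.val
      rw [show i.val + (j.val + n - i.val) = j.val + n by omega, Nat.add_mod_right]
      exact Nat.mod_eq_of_lt j.isLt
  have hsym : ∀ a ∈ S2, a ∉ S1 → ∀ b ∈ S1, b ∉ S2 → ¬ G.Adj a b :=
    fun a ha ha' b hb hb' h => hsep b hb hb' a ha ha' h.symm
  -- first arc
  obtain ⟨a, had, ha1, ha2⟩ := firstExit (fun a => g (i.val + a) ∉ S1) d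
    (by rw [add_zero, hgi]; exact hi)
    (by
      rw [hgj]
      have := hcon j
      rw [mem_union] at this
      tauto)
  have ha2' : g (i.val + (a + 1)) ∈ S1 := by
    by_contra h
    exact ha2 h
  have haK : g (i.val + (a + 1)) ∈ S1 ∩ S2 := by
    rw [mem_inter]
    refine ⟨ha2', ?_⟩
    by_contra h
    have hS := hgS (i.val + a)
    rw [mem_union] at hS
    exact hsym _ (hS.resolve_left ha1) ha1 _ ha2' h (hadj1 _)
  have had' : a + 1 < d := by
    rcases Nat.lt_or_ge (a + 1) d with h | h
    · exact h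
    · exfalso
      have : a + 1 = d := by omega
      rw [this, hgj] at haK
      exact hj (mem_inter.1 haK).2
  -- second arc
  obtain ⟨b, hbd, hb1, hb2⟩ := firstExit (fun b => g (i.val + d + b) ∉ S2) (n - d)
    (by rw [add_zero, hgj]; exact hj)
    (by
      rw [show i.val + d + (n - d) = i.val + n by omega, hgn, hgi]
      have := hcon i
      rw [mem_union] at this
      tauto)
  have hb2' : g (i.val + d + (b + 1)) ∈ S2 := by
    by_contra h
    exact hb2 h
  have hbK : g (i.val + d + (b + 1)) ∈ S1 ∩ S2 := by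
    rw [mem_inter]
    refine ⟨?_, hb2'⟩
    by_contra h
    have hS := hgS (i.val + d + b)
    rw [mem_union] at hS
    exact hsep _ (hS.resolve_right hb1) hb1 _ hb2' h (hadj1 _)
  have hbd' : d + (b + 1) < n := by
    rcases Nat.lt_or_ge (d + (b + 1)) n with h | h
    · exact h
    · exfalso
      have : i.val + d + (b + 1) = i.val + n := by omega
      rw [this, hgn, hgi] at hbK
      exact hi (mem_inter.1 hbK).1
  have heq : i.val + d + (b + 1) = i.val + (a + 1) + (d + b - a) := by omega
  rw [heq] at hbK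
  have hne := hinj (i.val + (a + 1)) (d + b - a) (by omega) (by omega)
  have hadj := hK _ haK _ hbK hne
  rcases hadj2 _ _ (by omega) (by omega) hadj with h | h <;> omega

end Pool.Agent.Xu.H87
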