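import Pool.Agent.Lib.MP_144d21_co.XU.Iface

/-!
# MP_144d21_co, project XU, module K6R
-/

set_option autoImplicit false

namespace Pool.Agent.Xu.H87

open Finset

/-- the twelve pairs -/
def prK : Fin 12 → Fin 6 × Fin 6 := ![(0, 1), (0, 2), (1, 2), (0, 3), (1, 3), (2, 3), (0, 4),
  (1, 4), (2, 4), (0, 5), (1, 5), (2, 5)]

theorem prK_mem : ∀ i j : Fin 6, i.val < 3 → i ≠ j →
    ∃ k : Fin 12, prK k = (i, j) ∨ prK k = (j, i) := by
  unfold prK
  decide

theorem k6r (h5 : K5depS) : K6rS := by
  intro V _ _ G T p hp hT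
  classical
  -- enumerate the six points
  obtain ⟨e⟩ : Nonempty (T ≃ Fin 6) := by
    refine ⟨Fintype.equivFinOfCardEq ?_⟩
    rw [Fintype.card_coe, hT]
  set t : Fin 6 → V := fun i => (e.symm i).1 with ht
  have htinj : ∀ i j, i ≠ j → t i ≠ t j := by
    intro i j hij h
    exact hij (e.symm.injective (Subtype.ext h))
  have htsurj : ∀ x ∈ T, ∃ i, t i = x := by
    intro x hx
    exact ⟨e ⟨x, hx⟩, by simp [ht]⟩
  set b : Fin 12 → V → Fin 3 → ℝ := fun k => row p (t (prK k).1) (t (prK k).2) with hb
  set W : Submodule ℝ (V → Fin 3 → ℝ) := Submodule.span ℝ (Set.range b) with hW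
  have hcard : Module.finrank ℝ W ≤ 12 := by
    have := finrank_range_le_card (R := ℝ) b
    rw [Fintype.card_fin] at this
    exact this
  have hmem1 : ∀ i j : Fin 6, i.val < 3 → i ≠ j → row p (t i) (t j) ∈ W := by
    intro i j hi hij
    obtain ⟨k, hk⟩ := prK_mem i j hi hij
    rcases hk with hk | hk
    · have : b k = row p (t i) (t j) := by rw [hb]; simp only [hk]
      rw [← this]
      exact Submodule.subset_span ⟨k, rfl⟩
    · have : b k = row p (t i) (t j) := by rw [hb]; simp only [hk]; exact row_comm _ _ _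
      rw [← this]
      exact Submodule.subset_span ⟨k, rfl⟩
  have hmem2 : ∀ i j : Fin 6, j.val < 3 → i ≠ j → row p (t i) (t j) ∈ W := by
    intro i j hj hij
    rw [row_comm]
    exact hmem1 j i hj hij.symm
  have hmem : ∀ i j : Fin 6, row p (t i) (t j) ∈ W := by
    intro i j
    by_cases hij : i = j
    · rw [hij, row_self]; exact W.zero_mem
    by_cases hi : i.val < 3
    · exact hmem1 i j hi hij
    by_cases hj : j.val < 3
    · exact hmem2 i j hj hij
    have h0i : i ≠ 0 := by rintro rfl; exact hi (by decide)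
    have h1i : i ≠ 1 := by rintro rfl; exact hi (by decide)
    have h2i : i ≠ 2 := by rintro rfl; exact hi (by decide)
    have h0j : j ≠ 0 := by rintro rfl; exact hj (by decide)
    have h1j : j ≠ 1 := by rintro rfl; exact hj (by decide)
    have h2j : j ≠ 2 := by rintro rfl; exact hj (by decide)
    have h := h5 V p hp (t i) (t j) (t 0) (t 1) (t 2) (htinj _ _ hij) (htinj _ _ h0i)
      (htinj _ _ h1i) (htinj _ _ h2i) (htinj _ _ h0j) (htinj _ _ h1j) (htinj _ _ h2j)
      (htinj _ _ (by decide)) (htinj _ _ (by decide)) (htinj _ _ (by decide))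
    refine Submodule.span_le.2 ?_ h
    intro y hy
    simp only [Set.mem_insert_iff, Set.mem_singleton_iff] at hy
    rcases hy with rfl | rfl | rfl | rfl | rfl | rfl | rfl | rfl | rfl
    · exact hmem2 _ _ (by decide) h0i
    · exact hmem2 _ _ (by decide) h1i
    · exact hmem2 _ _ (by decide) h2i
    · exact hmem2 _ _ (by decide) h0j
    · exact hmem2 _ _ (by decide) h1j
    · exact hmem2 _ _ (by decide) h2j
    · exact hmem1 _ _ (by decide) (by decide)
    · exact hmem1 _ _ (by decide) (by decide)
    · exact hmem1 _ _ (by decide) (by decide)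
  have hle : rs p G T ≤ W := by
    refine Submodule.span_le.2 ?_
    rintro x ⟨u, hu, v, hv, -, rfl⟩
    obtain ⟨i, rfl⟩ := htsurj u hu
    obtain ⟨j, rfl⟩ := htsurj v hv
    exact hmem i j
  exact (Submodule.finrank_mono hle).trans hcard

end Pool.Agent.Xu.H87
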